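import Pool.Agent.Helper17.IA.StV

/-! Module PKU of project IA (MP_953b28_co): unions of packings and decompositions. -/

set_option autoImplicit false

namespace Pool.Agent.Helper14.IA

open Finset Pool.Agent.Helper93.IA Pool.Agent.Helper17.IA

private theorem inj_union {σ τ : Type} [DecidableEq σ] (e : σ → τ) (P P' : Finset σ)
    (h : ∀ T ∈ P, ∀ T' ∈ P, e T = e T' → T = T') (h' : ∀ T ∈ P', ∀ T' ∈ P', e T = e T' → T = T')
    (hd : ∀ T ∈ P, ∀ T' ∈ P', e T ≠ e T') :
    ∀ T ∈ P ∪ P', ∀ T' ∈ P ∪ P', e T = e T' → T = T' := by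
  intro T hT T' hT' he
  rcases Finset.mem_union.1 hT with h1 | h1 <;> rcases Finset.mem_union.1 hT' with h2 | h2
  · exact h T h1 T' h2 he
  · exact absurd he (hd T h1 T' h2)
  · exact absurd he.symm (hd T' h2 T h1)
  · exact h' T h1 T' h2 he

private theorem sub_union {σ τ : Type} [DecidableEq σ] [DecidableEq τ] (e : σ → τ) (P P' : Finset σ)
    (A A' : Finset τ) (h : ∀ T ∈ P, e T ∈ A) (h' : ∀ T ∈ P', e T ∈ A') :
    ∀ T ∈ P ∪ P', e T ∈ A ∪ A' := by
  intro T hT
  rcases Finset.mem_union.1 hT with h1 | h1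
  · exact Finset.mem_union_left _ (h T h1)
  · exact Finset.mem_union_right _ (h' T h1)

private theorem sub_union' {σ τ : Type} [DecidableEq σ] [DecidableEq τ] (e : σ → τ) (P P' : Finset σ)
    (A : Finset τ) (h : ∀ T ∈ P, e T ∈ A) (h' : ∀ T ∈ P', e T ∈ A \ P.image e) :
    ∀ T ∈ P ∪ P', e T ∈ A := by
  intro T hT
  rcases Finset.mem_union.1 hT with h1 | h1
  · exact h T h1
  · exact (Finset.mem_sdiff.1 (h' T h1)).1

private theorem ne_of_sdiff {σ τ : Type} [DecidableEq τ] (e : σ → τ) (P P' : Finset σ)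
    (A : Finset τ) (h' : ∀ T ∈ P', e T ∈ A \ P.image e) :
    ∀ T ∈ P, ∀ T' ∈ P', e T ≠ e T' := by
  intro T hT T' hT' he
  exact (Finset.mem_sdiff.1 (h' T' hT')).2 (he ▸ Finset.mem_image_of_mem e hT)

private theorem ne_of_disj {σ τ : Type} [DecidableEq τ] (e : σ → τ) (P P' : Finset σ)
    (A A' : Finset τ) (hd : Disjoint A A') (h : ∀ T ∈ P, e T ∈ A) (h' : ∀ T ∈ P', e T ∈ A') :
    ∀ T ∈ P, ∀ T' ∈ P', e T ≠ e T' := by
  intro T hT T' hT' he
  exact (Finset.disjoint_left.1 hd) (h T hT) (he ▸ h' T' hT')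

private theorem dec_union {α β γ : Type} [DecidableEq α] [DecidableEq β] [DecidableEq γ]
    (A A' : Finset (α × β)) (B B' : Finset (β × γ)) (C C' : Finset (γ × α))
    (hA : Disjoint A A') (hB : Disjoint B B') (hC : Disjoint C C') (h : Dec A B C)
    (h' : Dec A' B' C') : Dec (A ∪ A') (B ∪ B') (C ∪ C') := by
  obtain ⟨P, hP, ha, hb, hc⟩ := h
  obtain ⟨P', hP', ha', hb', hc'⟩ := h'
  refine ⟨P ∪ P', ⟨?_, ?_, ?_, ?_, ?_, ?_⟩, ?_, ?_, ?_⟩
  · exact sub_union eA P P' A A' hP.sA hP'.sA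
  · exact sub_union eB P P' B B' hP.sB hP'.sB
  · exact sub_union eC P P' C C' hP.sC hP'.sC
  · exact inj_union eA P P' hP.iA hP'.iA (ne_of_disj eA P P' A A' hA hP.sA hP'.sA)
  · exact inj_union eB P P' hP.iB hP'.iB (ne_of_disj eB P P' B B' hB hP.sB hP'.sB)
  · exact inj_union eC P P' hP.iC hP'.iC (ne_of_disj eC P P' C C' hC hP.sC hP'.sC)
  · rw [Finset.image_union, ha, ha']
  · rw [Finset.image_union, hb, hb']
  · rw [Finset.image_union, hc, hc']

/-- Module PKU. -/
theorem hPKU : StPKU := by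
  intro α β γ _ _ _
  refine ⟨?_, ?_, ?_⟩
  · intro A B C P P' hP hP'
    exact ⟨sub_union' eA P P' A hP.sA hP'.sA, sub_union' eB P P' B hP.sB hP'.sB,
      sub_union' eC P P' C hP.sC hP'.sC,
      inj_union eA P P' hP.iA hP'.iA (ne_of_sdiff eA P P' A hP'.sA),
      inj_union eB P P' hP.iB hP'.iB (ne_of_sdiff eB P P' B hP'.sB),
      inj_union eC P P' hP.iC hP'.iC (ne_of_sdiff eC P P' C hP'.sC)⟩
  · intro A A' B B' C C' hA hB hC h h'
    exact dec_union A A' B B' C C' hA hB hC h h'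
  · intro ι _ s A B C hD hd
    induction s using Finset.induction_on with
    | empty =>
      refine ⟨∅, ⟨?_, ?_, ?_, ?_, ?_, ?_⟩, ?_, ?_, ?_⟩ <;> simp
    | insert i s his ih =>
      rw [Finset.biUnion_insert, Finset.biUnion_insert, Finset.biUnion_insert]
      have ih' := ih (fun j hj => hD j (Finset.mem_insert_of_mem hj))
        (fun j hj k hk => hd j (Finset.mem_insert_of_mem hj) k (Finset.mem_insert_of_mem hk))
      have hne : ∀ j ∈ s, i ≠ j := fun j hj he => his (he ▸ hj)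
      have hdi : ∀ j ∈ s, Disjoint (A i) (A j) ∧ Disjoint (B i) (B j) ∧ Disjoint (C i) (C j) :=
        fun j hj => hd i (Finset.mem_insert_self i s) j (Finset.mem_insert_of_mem hj) (hne j hj)
      apply dec_union
      · exact (Finset.disjoint_biUnion_right _ _ _).2 (fun j hj => (hdi j hj).1)
      · exact (Finset.disjoint_biUnion_right _ _ _).2 (fun j hj => (hdi j hj).2.1)
      · exact (Finset.disjoint_biUnion_right _ _ _).2 (fun j hj => (hdi j hj).2.2)
      · exact hD i (Finset.mem_insert_self i s)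
      · exact ih'

end Pool.Agent.Helper14.IA
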